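import Pool.Agent.K1H27.RD.Stm

/-!
# Reductive operators `M_φ + V` on `L²`, `V` of Volterra type, are normal (piece RD-VRED)
-/

set_option autoImplicit false

namespace Pool.Agent.K1H39.RD

open MeasureTheory Set Metric Filter Topology
open scoped InnerProductSpace ENNReal NNReal ComplexConjugate
open Pool.Agent.K1H27.VM

variable {S : Type} [MeasurableSpace S] {μ : Measure S}

/-- the adjoint kernel -/
theorem ker_adj {s s' : ℝ≥0∞} {τ : S → ℝ} {k : S → S → ℂ} {a b : S → ℝ} {l : S → S → ℝ}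
    (h : Ker μ s s' τ k a b l) :
    Ker μ s s' (fun x => -τ x) (fun x y => conj (k y x)) b a (fun x y => l y x) where
  mτ := h.symm.mτ
  mk' := Complex.continuous_conj.measurable.comp h.symm.mk'
  ma := h.symm.ma
  mb := h.symm.mb
  ml := h.symm.ml
  hss := h.hss
  hs2 := h.hs2
  supp x y hxy := h.symm.supp x y (fun h0 => hxy (by
    have h1 : k y x = 0 := h0
    rw [h1, map_zero]))
  l1 := h.symm.l1
  l2 := h.symm.l2
  le x y := by
    rw [RCLike.norm_conj]
    exact h.symm.le x y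

theorem inner_eq (f g : Lp ℂ 2 μ) : ⟪f, g⟫_ℂ = ∫ x, conj (f x) * g x ∂μ := by
  rw [L2.inner_def]
  refine integral_congr_ae (Eventually.of_forall fun x => ?_)
  simp only [RCLike.inner_apply]
  ring

/-- the adjoint of a multiplication operator -/
theorem mul_adj {φ : S → ℂ} {N N' : Lp ℂ 2 μ →L[ℂ] Lp ℂ 2 μ} (hN : IsMul φ N)
    (hN' : IsMul (fun x => conj (φ x)) N') : N' = ContinuousLinearMap.adjoint N := by
  rw [ContinuousLinearMap.eq_adjoint_iff]
  intro g f
  rw [inner_eq, inner_eq]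
  refine integral_congr_ae ?_
  filter_upwards [hN f, hN' g] with x h1 h2
  rw [h1, h2, map_mul, Complex.conj_conj]
  ring

/-- the adjoint of an integral operator -/
theorem int_adj [SigmaFinite μ] {k : S → S → ℂ} (hk : Measurable (Function.uncurry k))
    (hHT : HT μ 2 2 k ≠ ∞) (hHT' : HT μ 2 2 (fun x y => k y x) ≠ ∞)
    {V V' : Lp ℂ 2 μ →L[ℂ] Lp ℂ 2 μ} (hV : IsInt k V)
    (hV' : IsInt (fun x y => conj (k y x)) V') : V' = ContinuousLinearMap.adjoint V := by
  have hpq : (2 : ℝ≥0∞).HolderConjugate 2 := inferInstance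
  have hk' : Measurable (Function.uncurry fun x y => k y x) := hk.comp measurable_swap
  obtain ⟨⟨Vt, hVt⟩, -⟩ := Pool.Agent.K1H28.VM.t_OP S μ 2 2 hpq (by simp) (by simp)
    (fun x y => k y x) hk' hHT'
  have hVV := (Pool.Agent.K1H28.VM.t_OP S μ 2 2 hpq (by simp) (by simp) k hk hHT).2 V Vt hV hVt
  rw [ContinuousLinearMap.eq_adjoint_iff]
  intro g f
  rw [inner_eq, inner_eq]
  have h1 := hVV f (star g)
  have h2 : ∫ x, (star g : Lp ℂ 2 μ) x * V f x ∂μ = ∫ x, conj (g x) * V f x ∂μ := by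
    refine integral_congr_ae ?_
    filter_upwards [Lp.coeFn_star g] with x hx
    rw [hx]
    rfl
  rw [← h2, ← h1]
  refine integral_congr_ae ?_
  filter_upwards [hV' g, hVt (star g)] with x h3 h4
  rw [h3, h4]
  congr 1
  rw [← integral_conj]
  refine integral_congr_ae ?_
  filter_upwards [Lp.coeFn_star g] with y hy
  rw [hy, map_mul, Complex.conj_conj]
  rfl

/-- multiplication operators are normal -/
theorem mul_normal {φ : S → ℂ} {N N' : Lp ℂ 2 μ →L[ℂ] Lp ℂ 2 μ} (hN : IsMul φ N)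
    (hN' : IsMul (fun x => conj (φ x)) N') : IsStarNormal N := by
  constructor
  rw [ContinuousLinearMap.star_eq_adjoint, ← mul_adj hN hN']
  show N' * N = N * N'
  ext1 f
  show N' (N f) = N (N' f)
  apply Lp.ext
  filter_upwards [hN f, hN' f, hN' (N f), hN (N' f)] with x h1 h2 h3 h4
  rw [h3, h4, h1, h2]
  ring

end Pool.Agent.K1H39.RD

namespace Pool.Agent.K1H27.RD

open MeasureTheory Set Metric Filter Topology
open scoped InnerProductSpace ENNReal NNReal ComplexConjugate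
open Pool.Agent.K1H27.VM Pool.Agent.K1H39.RD

theorem t_VRED : S_VRED := by
  intro S _ μ _ s s' α β φ τ k a b l hφ hφb h hα hβ ha ha' hb hb' T hT hred
  have hpq : (2 : ℝ≥0∞).HolderConjugate 2 := inferInstance
  have hp : (2 : ℝ≥0∞) ≠ ∞ := by simp
  have hφc : Measurable fun x => conj (φ x) := Complex.continuous_conj.measurable.comp hφ
  have hφcb : ∃ M : ℝ, ∀ x, ‖conj (φ x)‖ ≤ M := by
    obtain ⟨M, hM⟩ := hφb
    exact ⟨M, fun x => by rw [RCLike.norm_conj]; exact hM x⟩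
  have hHT : HT μ 2 2 k ≠ ∞ := h.ht hpq hp hp hβ ha hb'
  have hHT' : HT μ 2 2 (fun x y => k y x) ≠ ∞ := h.symm.ht hpq hp hp hα hb ha'
  have hHTc : HT μ 2 2 (fun x y => conj (k y x)) ≠ ∞ := (ker_adj h).ht hpq hp hp hα hb ha'
  obtain ⟨⟨V, hV⟩, -⟩ := Pool.Agent.K1H28.VM.t_OP S μ 2 2 hpq hp hp k h.mk' hHT
  obtain ⟨⟨V', hV'⟩, -⟩ := Pool.Agent.K1H28.VM.t_OP S μ 2 2 hpq hp hp
    (fun x y => conj (k y x)) (ker_adj h).mk' hHTc
  obtain ⟨-, hmul⟩ := Pool.Agent.K1H28.VM.t_PAIR S μ 2 2 hpq hp hp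
  obtain ⟨N, hN⟩ := hmul φ hφ hφb
  obtain ⟨N', hN'⟩ := hmul (fun x => conj (φ x)) hφc hφcb
  have hTe : T = N + V := by
    ext1 g
    apply Lp.ext
    filter_upwards [hT g, Lp.coeFn_add (N g) (V g), hN g, hV g] with x h1 h2 h3 h4
    rw [h1]
    show _ = (N g + V g : Lp ℂ 2 μ) x
    rw [h2, Pi.add_apply, h3, h4]
  have hadj : ContinuousLinearMap.adjoint T = N' + V' := by
    rw [hTe, map_add, ← mul_adj hN hN', ← int_adj h.mk' hHT hHT' hV hV']
  have hT' : ∀ g : Lp ℂ 2 μ, ⇑(ContinuousLinearMap.adjoint T g) =ᵐ[μ]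
      fun x => conj (φ x) * g x + ∫ y, conj (k y x) * g y ∂μ := by
    intro g
    rw [hadj]
    filter_upwards [Lp.coeFn_add (N' g) (V' g), hN' g, hV' g] with x h1 h2 h3
    show (N' g + V' g : Lp ℂ 2 μ) x = _
    rw [h1, Pi.add_apply, h2, h3]
  have hL : LocRes T := h.loc (α := α) (q := 2) hp hβ hφ ha hb' hT
  have hL' : LocRes (ContinuousLinearMap.adjoint T) :=
    (ker_adj h).loc (α := α) (q := 2) hp hα hφc hb ha' hT'
  have hVc : IsCompactOperator V := Pool.Agent.K1H2.VM.t_CPT Pool.Agent.K1H28.VM.t_OP S μ 2 2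
    hpq hp hp k h.mk' hHT V hV
  have hsc : IsCompactOperator (Pool.Agent.W706.HIR.sc T) := by
    rw [hTe]
    exact Pool.Agent.W706.HIR.compact_sc (mul_normal hN hN') hVc
  exact Pool.Agent.Y271.RN.main T hred hsc hL hL'

end Pool.Agent.K1H27.RD
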